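import Pool.Agent.Helper94_CBG.Ort

/-!
# Torus actions which preserve an orthogonal complement: no positive sectional curvature

The metric is NOT assumed to be invariant under the action. Definitions (`Pool/Agent/CBG/Short.lean`):
`Met V E` = smooth Riemannian metrics (Mathlib) on the manifold `E` modelled on `V = ℝⁿ`, `form g p` = the inner
product at `p`, `val B v w` = `B(v,w)`. For a local parametrization `ψ : ℝⁿ → E` at `x` (`Par ψ x`: smooth near
`x`, injective differential at `x`) `pull g ψ` is the matrix of `g` in these coordinates,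
`IsChr G x v w a` says that `a` is the Christoffel vector `Γ(v,w)`, `curv` is `⟨R(v,w)w, v⟩`.
`SecPos g`: in all local parametrizations `⟨R(v,w)w,v⟩ > 0` for linearly independent `v`, `w`, i.e. `sec > 0`.
`ex t`, `t` in `ℝ²`, is the element `(exp 2πit₁, exp 2πit₂)` of the torus, `act θ` the map `p ↦ θp`, `fund V a p` the
fundamental vector `V_a(p)`, the derivative of `s ↦ ex (sa) p` at `0`; `len g a p = |V_a(p)|²`.
`Hor g L p u`: `u` is orthogonal to `V_b(p)` for all `b` in `L`, i.e. `u` is in `H_L(p)`.

SPECIAL CASES. Conformal actions (`n` odd: `L = ℝ²`; `n` even: `L` the line of a circle subgroup): `H_L` is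
preserved, and for `x`, `a` let `p` be the point of the orbit of `x` at which `|V_a|` is minimal, then the
conformal factors at `p` are at least `1`. `g = ψ g₀` on `H`, `g = ρ g₀` on the orbits, where `g₀` is invariant, `H`
the orthogonal complement of the orbits, and `ψ`, `ρ` have a common minimum on every orbit, all `n`.
`g` restricted to `H_L` invariant and `g` on `V_L` arbitrary (in this case the orbits of `L` form a Riemannian
foliation).

PROOF. Let `(p, a)` be a minimum of `|V_b|/|b|` over `E × L`, `T = V_L(p)`, `H = H_L(p)`, of odd dimension. In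
coordinates in which the torus acts by translations the derivatives of `g` along `T` in the directions
`T × H` vanish at `p`. With `e = V_a(p)`: `D_z g(e,e) = 0`,
`D²_{zz} g(e,e) + 4 D_z g(e,w) + 2 g(w,w) ≥ 0` for `w` in `T`. The skew form `D_z g(e,z') - D_z' g(e,z)` on `H` has a
kernel vector `z ≠ 0`, and then `Γ(e,z) =: A` is in `T`, the terms `⟨Γ(e,e),Γ(z,z)⟩` and `D_z D_e g(e,z)` cancel, and
`⟨R(e,z)z,e⟩ ≤ -(1/2) D²_{zz} g(e,e) + |A|² ≤ -3 |A|² ≤ 0` (`w = -2A`).
-/

set_option autoImplicit false

open scoped Manifold ContDiff Topology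

namespace Pool.Agent.Results.MP_148648_gt.OrthogonalBerger

open Pool.Agent.CBG.Short

/-- Let the torus `S¹ × S¹` act smoothly with finite isotropy groups (for instance freely) on a closed
manifold `E` of dimension `n`, let `g` be a Riemannian metric and `L ≠ 0` a subspace of `ℝ²` such that
`n + dim L` is odd (`L = ℝ²` if `n` is odd, a line, for instance that of a circle subgroup, if `n` is even).
Suppose that the elements of `exp L` preserve the orthogonal complement `H_L` of the fundamental vectors
`V_b`, `b` in `L`, and that for every point `x` and every `a ≠ 0` in `L` there is a point `p` with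
`|V_a(p)| ≤ |V_a(x)|` such that `|dθ u| ≥ |u|` for all `θ` in `exp L` and all `u` in `H_L(p)`. Then `g` does not have
positive sectional curvature. -/
theorem result (n : ℕ) (E : Type) [TopologicalSpace E] [T2Space E] [CompactSpace E] [Nonempty E]
    [ChartedSpace (EuclideanSpace ℝ (Fin n)) E] [IsManifold (𝓡 n) ∞ E]
    [MulAction (Circle × Circle) E] (hsmooth : SmoothTorus (EuclideanSpace ℝ (Fin n)) E)
    (hfin : FiniteIsotropy E) (g : Met (EuclideanSpace ℝ (Fin n)) E)
    (L : Submodule ℝ (ℝ × ℝ)) (hL : L ≠ ⊥) (hodd : Odd (n + Module.finrank ℝ L))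
    (hpres : PreservesHor g L)
    (hexp : ∀ (x : E), ∀ a ∈ L, a ≠ 0 → ∃ p : E, len g a p ≤ len g a x ∧ ExpandsHor g L p) :
    ¬ SecPos g :=
  CBG.H94.thu n E _ (CBG.H87.exp n E hsmooth hfin) g L hL hodd hpres hexp

end Pool.Agent.Results.MP_148648_gt.OrthogonalBerger
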