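import Pool.Agent.Helper94_CBG.Kap

/-!
# Metrics which are `C¹`-close to their translates by a torus action: an upper bound of the curvature

The metric `g` is NOT assumed to be invariant under the action. The definitions are in
`Pool/Agent/CBG/Thin.lean` and `Pool/Agent/CBG/Close.lean`: `Ed n` = Euclidean space, `Metric (Ed n) E` = smooth
Riemannian metrics of `E` (Mathlib). `SecAtLeast κ g`: in every local parametrization,
`⟨R(v,w)w,v⟩ ≥ κ (|v|²|w|² - ⟨v,w⟩²)`, i.e. `sec ≥ κ`. `LowerBound lam g₀ g f`: `g₀ ≤ lam² f^* g`.
`C1Close ε g₀ g f`: `|(∇_u (f^* g))(v,w)| ≤ ε |u| |v| |w|`, where `∇` is the Levi-Civita connection and the norms are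
those of `g₀`.

SPECIAL CASES. `g₀ = g`: some `θ` of the torus distorts a metric with `sec ≥ 1` by a definite amount in `C¹`.
`g₀` invariant under the torus: the two conditions for all `θ` follow from `g₀ ≤ lam² g` and `|∇g| ≤ ε` (since
`θ` is an isometry of `g₀`), so the minimum of the sectional curvature of `g` is at most `(9/2) ε² lam⁶`:
quadratic in the `C¹` distance from the invariant metrics, whatever the second derivatives of `g` are.
`g₀ = g`, `ε = 0`, `lam = 1`: Berger's theorem.

PROOF. Let `G` be the average of `θ^* g` over the torus. The second derivatives of a metric `h` enter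
`R_h(v,w,w,v)` linearly. For fixed vectors `A, B, C` (the Christoffel vectors of `G` for `(v,w)`, `(v,v)`, `(w,w)`)
and the Christoffel vectors `A_h, B_h, C_h` of `h`, `R_h(v,w,w,v) = lin(h) + h(A_h - A, A_h - A) - h(B_h - B, C_h - C)`
with `lin` linear in `h` and `lin(G) = R_G(v,w,w,v)`. So the curvature of `G` differs from the average of the
curvatures of `θ^* g` by variances of the Christoffel vectors, which are at most the second moments with
respect to the Christoffel vectors of `g₀`, at most `(9/4) ε² lam²` each (for `g₀`-orthonormal `v`, `w`). So all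
sectional curvatures of the invariant metric `G` would be positive if `κ lam⁻⁴ > (9/2) ε² lam²`. For the
invariant metric the maximum of `h⁻¹(ξ, ξ)` (`h` the Gram matrix of the fundamental vector fields, `ξ ≠ 0` fixed)
gives a plane of curvature `≤ 0` (Berger's theorem, here by one second variation in adapted coordinates, in
every dimension), contradiction.
-/

set_option autoImplicit false

open scoped Manifold ContDiff Topology

namespace Pool.Agent.Results.MP_148648_gt.QuantitativeBerger

open Pool.Agent.CBG Pool.Agent.CBG.Thin

/-- Let the torus `S¹ × S¹` act smoothly with finite isotropy groups (for instance freely) on a closed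
manifold, let `g` be a Riemannian metric with `sec ≥ κ` and `g₀` any Riemannian metric. If
`g₀ ≤ lam² θ^* g` and `|∇(θ^* g)| ≤ ε` for all `θ` of the torus (`∇` and the norm of `g₀`), then
`κ ≤ (9/2) ε² lam⁶`. -/
theorem result (n : ℕ) (E : Type) [TopologicalSpace E] [T2Space E] [CompactSpace E] [Nonempty E]
    [ChartedSpace (Ed n) E] [IsManifold (𝓡 n) ∞ E] [MulAction (Circle × Circle) E]
    (hact : SmoothAlmostFree (Ed n) (Ed 1) Circle E) (g₀ g : Metric (Ed n) E) (κ ε lam : ℝ)
    (hsec : SecAtLeast κ g) (hε : 0 ≤ ε) (hlam : 0 < lam)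
    (hlow : ∀ θ : Circle × Circle, LowerBound lam g₀ g (fun p => θ • p))
    (hC1 : ∀ θ : Circle × Circle, C1Close ε g₀ g (fun p => θ • p)) :
    κ ≤ 9 / 2 * ε ^ 2 * lam ^ 6 :=
  CBG.H94K.fin_kap n E hact g₀ g κ ε lam hsec hε hlam hlow hC1

end Pool.Agent.Results.MP_148648_gt.QuantitativeBerger
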